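import Pool.Agent.Helper83_CNED.Stmt

/-!
# LINK: linked rectangles stay linked
-/

set_option autoImplicit false
set_option linter.all false

open MeasureTheory Set Topology

open scoped ENNReal

noncomputable section

namespace Pool.Agent.Helper83_CNED.H3

/-- a continuous angle which goes from the positive to the negative real axis through the upper
half plane increases by `π` -/
theorem angle {φ : ℝ → ℝ} (hφ : Continuous φ) {T : ℝ} (hT : 0 ≤ T)
    (h1 : ∀ s, 0 ≤ s → s ≤ T → 0 ≤ Real.sin (φ s)) (h2 : Real.sin (φ 0) = 0)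
    (h3 : 0 < Real.cos (φ 0)) (h4 : Real.sin (φ T) = 0) (h5 : Real.cos (φ T) < 0) :
    φ T = φ 0 + Real.pi := by
  have hc : Real.cos (φ 0) = 1 := by
    have := Real.sin_sq_add_cos_sq (φ 0)
    rw [h2] at this
    nlinarith
  have hs : ∀ s, Real.sin (φ s - φ 0) = Real.sin (φ s) := by
    intro s
    rw [Real.sin_sub, h2, hc]
    ring
  have hcc : ∀ s, Real.cos (φ s - φ 0) = Real.cos (φ s) := by
    intro s
    rw [Real.cos_sub, h2, hc]
    ring
  have hψ : ContinuousOn (fun s => φ s - φ 0) (Icc 0 T) := (hφ.sub continuous_const).continuousOn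
  have hpi := Real.pi_pos
  have hlow : 0 ≤ φ T - φ 0 := by
    by_contra hneg
    push Not at hneg
    have hy : max (φ T - φ 0) (-(Real.pi / 2)) ∈ Icc (φ T - φ 0) (φ 0 - φ 0) :=
      ⟨le_max_left _ _, by rw [sub_self]; exact max_le hneg.le (by linarith)⟩
    obtain ⟨s, hs1, hs2⟩ := intermediate_value_Icc' hT hψ hy
    have h6 : 0 ≤ Real.sin (φ s - φ 0) := by rw [hs]; exact h1 s hs1.1 hs1.2
    have h7 : Real.sin (φ s - φ 0) < 0 := by
      have h8 : φ s - φ 0 = max (φ T - φ 0) (-(Real.pi / 2)) := hs2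
      apply Real.sin_neg_of_neg_of_neg_pi_lt
      · rw [h8]; exact max_lt hneg (by linarith)
      · rw [h8]; exact lt_of_lt_of_le (by linarith) (le_max_right _ _)
    linarith
  have hhigh : φ T - φ 0 ≤ Real.pi := by
    by_contra hneg
    push Not at hneg
    have hy : min (φ T - φ 0) (Real.pi + Real.pi / 2) ∈ Icc (φ 0 - φ 0) (φ T - φ 0) :=
      ⟨by rw [sub_self]; exact le_min hlow (by linarith), min_le_left _ _⟩
    obtain ⟨s, hs1, hs2⟩ := intermediate_value_Icc hT hψ hy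
    have h6 : 0 ≤ Real.sin (φ s - φ 0) := by rw [hs]; exact h1 s hs1.1 hs1.2
    have h7 : Real.sin (φ s - φ 0) < 0 := by
      have h8 : φ s - φ 0 = min (φ T - φ 0) (Real.pi + Real.pi / 2) := hs2
      have h9 : Real.sin (φ s - φ 0 - Real.pi) = -Real.sin (φ s - φ 0) := Real.sin_sub_pi _
      have h10 : 0 < Real.sin (φ s - φ 0 - Real.pi) := by
        apply Real.sin_pos_of_pos_of_lt_pi
        · rw [h8, sub_pos]; exact lt_min hneg (by linarith)
        · rw [h8]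
          have := min_le_right (φ T - φ 0) (Real.pi + Real.pi / 2)
          linarith
      linarith
    linarith
  have h6 : Real.sin (φ T - φ 0) = 0 := by rw [hs, h4]
  have h7 : Real.cos (φ T - φ 0) < 0 := by rw [hcc]; exact h5
  rcases eq_or_lt_of_le hhigh with h8 | h8
  · linarith
  · rcases eq_or_lt_of_le hlow with h9 | h9
    · rw [← h9, Real.cos_zero] at h7
      linarith
    · have := Real.sin_pos_of_pos_of_lt_pi h9 h8
      linarith

/-- topological part: no family of closed curves as below can be contracted -/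
theorem no_contract (θ : ℝ × ℝ → ℂ) (hθ : Continuous θ) (h0 : ∀ x, θ x ≠ 0)
    (hconst : ∀ s s', θ (1, s) = θ (1, s')) (hends : ∀ a, θ (a, 3) = θ (a, -3))
    (hup : ∀ s, 0 ≤ s → s ≤ 3 → 0 ≤ (θ (0, s)).im) (hdown : ∀ s, 0 ≤ s → s ≤ 3 → (θ (0, -s)).im ≤ 0)
    (hp : 0 < (θ (0, 0)).re) (hq : (θ (0, 3)).re < 0) (hq' : (θ (0, 3)).im = 0) : False := by
  have hn : ∀ x, ‖θ x‖ ≠ 0 := fun x => norm_ne_zero_iff.2 (h0 x)
  have hp' : (θ (0, 0)).im = 0 := by
    have e1 := hup 0 le_rfl (by norm_num)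
    have e2 := hdown 0 le_rfl (by norm_num)
    rw [neg_zero] at e2
    linarith
  let f : C(ℝ × ℝ, Circle) := ⟨fun x => ⟨θ x / ‖θ x‖, by
      show θ x / ‖θ x‖ ∈ Metric.sphere (0 : ℂ) 1
      rw [mem_sphere_zero_iff_norm, norm_div, Complex.norm_real, norm_norm, div_self (hn x)]⟩, by
    refine Continuous.subtype_mk ?_ _
    refine hθ.div (by fun_prop) fun x => ?_
    exact_mod_cast hn x⟩
  have hf : ∀ x, ((f x : Circle) : ℂ) = θ x / ‖θ x‖ := fun x => rfl
  have ht0 := Circle.exp_arg (f (0, 0))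
  obtain ⟨F, ⟨-, hF⟩, -⟩ := Circle.isCoveringMap_exp.existsUnique_continuousMap_lifts f (0, 0) _ ht0
  have hF' : ∀ x, Circle.exp (F x) = f x := fun x => congrFun hF x
  have hre : ∀ x, Real.cos (F x) = (θ x).re / ‖θ x‖ := by
    intro x
    have := congrArg (fun z : Circle => (z : ℂ).re) (hF' x)
    simp only [Circle.coe_exp, hf] at this
    rw [Complex.exp_ofReal_mul_I_re] at this
    rw [this, Complex.div_ofReal_re]
  have him : ∀ x, Real.sin (F x) = (θ x).im / ‖θ x‖ := by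
    intro x
    have := congrArg (fun z : Circle => (z : ℂ).im) (hF' x)
    simp only [Circle.coe_exp, hf] at this
    rw [Complex.exp_ofReal_mul_I_im] at this
    rw [this, Complex.div_ofReal_im]
  have hpos : ∀ x, 0 < ‖θ x‖ := fun x => norm_pos_iff.2 (h0 x)
  have e1 : F (1, 3) = F (1, -3) := by
    have := Circle.isCoveringMap_exp.const_of_comp (g := fun s : ℝ => F (1, s)) (by fun_prop)
      (fun s s' => by
        rw [hF', hF']
        exact Subtype.ext (by rw [hf, hf, hconst s s']))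
    exact this 3 (-3)
  have e2 : (fun a : ℝ => F (a, 3)) = fun a : ℝ => F (a, -3) := by
    refine Circle.isCoveringMap_exp.eq_of_comp_eq (by fun_prop) (by fun_prop) ?_ 1 e1
    funext a
    show Circle.exp (F (a, 3)) = Circle.exp (F (a, -3))
    rw [hF', hF']
    exact Subtype.ext (by rw [hf, hf, hends a])
  have e3 : F (0, 3) = F (0, -3) := congrFun e2 0
  have a1 : F (0, 3) = F (0, 0) + Real.pi := by
    refine angle (φ := fun s => F (0, s)) (by fun_prop) (by norm_num) (fun s hs hs' => ?_) ?_ ?_ ?_ ?_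
    · rw [him]; exact div_nonneg (hup s hs hs') (hpos _).le
    · rw [him, hp', zero_div]
    · rw [hre]; exact div_pos hp (hpos _)
    · rw [him, hq', zero_div]
    · rw [hre]; exact div_neg_of_neg_of_pos hq (hpos _)
  have a2 : -F (0, -3) = -F (0, -0) + Real.pi := by
    refine angle (φ := fun s => -F (0, -s)) (by fun_prop) (by norm_num) (fun s hs hs' => ?_) ?_ ?_ ?_ ?_
    · rw [Real.sin_neg, him, neg_nonneg]; exact div_nonpos_of_nonpos_of_nonneg (hdown s hs hs') (hpos _).le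
    · rw [Real.sin_neg, him, neg_zero, hp', zero_div, neg_zero]
    · rw [Real.cos_neg, hre, neg_zero]; exact div_pos hp (hpos _)
    · rw [Real.sin_neg, him, ← hends, hq', zero_div, neg_zero]
    · rw [Real.cos_neg, hre, ← hends]; exact div_neg_of_neg_of_pos hq (hpos _)
  rw [neg_zero] at a2
  have := Real.pi_pos
  linarith

/-- clamp to `[0, 1]` -/
def cl (t : ℝ) : ℝ := max 0 (min 1 t)

theorem continuous_cl : Continuous cl := by unfold cl; fun_prop

theorem cl_mem (t : ℝ) : 0 ≤ cl t ∧ cl t ≤ 1 :=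
  ⟨le_max_left _ _, max_le zero_le_one (min_le_left _ _)⟩

theorem cl_nonpos {t : ℝ} (h : t ≤ 0) : cl t = 0 := by
  unfold cl; rw [max_eq_left]; exact (min_le_right _ _).trans h

theorem cl_one {t : ℝ} (h : 1 ≤ t) : cl t = 1 := by
  unfold cl; rw [min_eq_left h]; exact max_eq_right zero_le_one

/-- the height of the path -/
def hgt (s : ℝ) : ℝ := cl (min s (3 - s))

theorem continuous_hgt : Continuous hgt := continuous_cl.comp (by fun_prop)

/-- the rectangle as a closed path on `[-3, 3]` -/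
def gam (u₁ u₂ v₁ v₂ v w : ℝ) (s : ℝ) : Eu 3 :=
  !₂[u₁ + (u₂ - u₁) * cl (|s| - 1), v + (v₂ - v) * hgt s - (v - v₁) * hgt (-s), w]

theorem gam0 (u₁ u₂ v₁ v₂ v w s : ℝ) :
    gam u₁ u₂ v₁ v₂ v w s 0 = u₁ + (u₂ - u₁) * cl (|s| - 1) := rfl

theorem gam1 (u₁ u₂ v₁ v₂ v w s : ℝ) :
    gam u₁ u₂ v₁ v₂ v w s 1 = v + (v₂ - v) * hgt s - (v - v₁) * hgt (-s) := rfl

theorem gam2 (u₁ u₂ v₁ v₂ v w s : ℝ) : gam u₁ u₂ v₁ v₂ v w s 2 = w := rfl

theorem continuous_gam (u₁ u₂ v₁ v₂ v w : ℝ) : Continuous (gam u₁ u₂ v₁ v₂ v w) := by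
  have h1 := continuous_cl
  have h2 := continuous_hgt
  unfold gam
  refine (PiLp.continuous_toLp 2 _).comp (continuous_pi fun j => ?_)
  fin_cases j
  · show Continuous fun s => u₁ + (u₂ - u₁) * cl (|s| - 1)
    fun_prop
  · show Continuous fun s => v + (v₂ - v) * hgt s - (v - v₁) * hgt (-s)
    fun_prop
  · exact continuous_const

theorem hgt_neg {s : ℝ} (h : s ≤ 0) : hgt s = 0 := cl_nonpos ((min_le_left _ _).trans h)

theorem hgt_three {s : ℝ} (h : 3 ≤ s) : hgt s = 0 :=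
  cl_nonpos ((min_le_right _ _).trans (by linarith))

theorem hgt_mid {s : ℝ} (h1 : 1 ≤ s) (h2 : s ≤ 2) : hgt s = 1 := cl_one (le_min h1 (by linarith))

theorem hgt_mem (s : ℝ) : 0 ≤ hgt s ∧ hgt s ≤ 1 := cl_mem _

theorem gam_mem {u₁ u₂ v₁ v₂ v w : ℝ} (hu : u₁ ≤ u₂) (hv1 : v₁ ≤ v) (hv2 : v ≤ v₂) (s : ℝ) :
    gam u₁ u₂ v₁ v₂ v w s ∈ rectA u₁ u₂ v₁ v₂ w := by
  have a1 := cl_mem (|s| - 1)
  have a2 := hgt_mem s
  have a3 := hgt_mem (-s)
  have hz : hgt s = 0 ∨ hgt (-s) = 0 := by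
    rcases le_total s 0 with h | h
    · exact Or.inl (hgt_neg h)
    · exact Or.inr (hgt_neg (by linarith))
  refine ⟨rfl, ?_, ?_, ?_⟩
  · rw [gam0]
    constructor
    · nlinarith
    · nlinarith
  · rw [gam1]
    rcases hz with h | h
    · rw [h]
      constructor
      · nlinarith
      · nlinarith
    · rw [h]
      constructor
      · nlinarith
      · nlinarith
  · rw [gam0, gam1]
    rcases le_total |s| 1 with h | h
    · left
      rw [cl_nonpos (by linarith)]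
      ring
    · rcases le_total 2 |s| with h' | h'
      · right; left
        rw [cl_one (by linarith)]
        ring
      · right; right
        rcases le_total s 0 with h'' | h''
        · left
          rw [abs_of_nonpos h''] at h h'
          rw [hgt_neg h'', hgt_mid h h']
          ring
        · right
          rw [abs_of_nonneg h''] at h h'
          rw [hgt_mid h h', hgt_neg (by linarith : -s ≤ 0)]
          ring

/-- the function that vanishes on the second rectangle -/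
def tht (u₃ u₄ v w₁ w₂ : ℝ) (x : Eu 3) : ℂ :=
  ⟨max (|x 0 - (u₃ + u₄) / 2| / ((u₄ - u₃) / 2)) (|x 2 - (w₁ + w₂) / 2| / ((w₂ - w₁) / 2)) - 1,
    x 1 - v⟩

theorem continuous_tht (u₃ u₄ v w₁ w₂ : ℝ) : Continuous (tht u₃ u₄ v w₁ w₂) := by
  have : tht u₃ u₄ v w₁ w₂ = fun x => Complex.equivRealProdCLM.symm
      (max (|x 0 - (u₃ + u₄) / 2| / ((u₄ - u₃) / 2)) (|x 2 - (w₁ + w₂) / 2| / ((w₂ - w₁) / 2)) - 1,
        x 1 - v) := rfl
  rw [this]
  refine Complex.equivRealProdCLM.symm.continuous.comp ?_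
  fun_prop

theorem tht_ne {u₃ u₄ v w₁ w₂ : ℝ} (hu : u₃ < u₄) (hw : w₁ < w₂) {x : Eu 3}
    (hx : x ∉ rectB u₃ u₄ v w₁ w₂) : tht u₃ u₄ v w₁ w₂ x ≠ 0 := by
  intro h
  apply hx
  have h1 : max (|x 0 - (u₃ + u₄) / 2| / ((u₄ - u₃) / 2))
      (|x 2 - (w₁ + w₂) / 2| / ((w₂ - w₁) / 2)) - 1 = 0 := congrArg Complex.re h
  have h2 : x 1 - v = 0 := congrArg Complex.im h
  have hr0 : 0 < (u₄ - u₃) / 2 := by linarith
  have hr2 : 0 < (w₂ - w₁) / 2 := by linarith
  have h3 : |x 0 - (u₃ + u₄) / 2| / ((u₄ - u₃) / 2) ≤ 1 := by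
    have := le_max_left (|x 0 - (u₃ + u₄) / 2| / ((u₄ - u₃) / 2))
      (|x 2 - (w₁ + w₂) / 2| / ((w₂ - w₁) / 2))
    linarith
  have h4 : |x 2 - (w₁ + w₂) / 2| / ((w₂ - w₁) / 2) ≤ 1 := by
    have := le_max_right (|x 0 - (u₃ + u₄) / 2| / ((u₄ - u₃) / 2))
      (|x 2 - (w₁ + w₂) / 2| / ((w₂ - w₁) / 2))
    linarith
  rw [div_le_one hr0, abs_le] at h3
  rw [div_le_one hr2, abs_le] at h4
  refine ⟨by linarith, ⟨by linarith, by linarith⟩, ⟨by linarith, by linarith⟩, ?_⟩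
  rcases max_choice (|x 0 - (u₃ + u₄) / 2| / ((u₄ - u₃) / 2))
      (|x 2 - (w₁ + w₂) / 2| / ((w₂ - w₁) / 2)) with h5 | h5
  · rw [h5, sub_eq_zero, div_eq_one_iff_eq hr0.ne'] at h1
    rcases abs_cases (x 0 - (u₃ + u₄) / 2) with ⟨h6, _⟩ | ⟨h6, _⟩
    · right; left; linarith
    · left; linarith
  · rw [h5, sub_eq_zero, div_eq_one_iff_eq hr2.ne'] at h1
    rcases abs_cases (x 2 - (w₁ + w₂) / 2) with ⟨h6, _⟩ | ⟨h6, _⟩
    · right; right; right; linarith
    · right; right; left; linarith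

theorem link : LinkStmt := by
  intro h u₁ u₂ u₃ u₄ v₁ v₂ v w₁ w₂ w hu1 hu2 hu3 hv1 hv2 hw1 hw2
  by_contra hneg
  push Not at hneg
  have hmem : ∀ s, gam u₁ u₂ v₁ v₂ v w s ∈ rectA u₁ u₂ v₁ v₂ w := fun s =>
    gam_mem (by linarith) hv1.le hv2.le s
  set x0 : Eu 3 := gam u₁ u₂ v₁ v₂ v w 0 with hx0
  -- the homotopy
  let H : ℝ × ℝ → Eu 3 := fun x => h.symm ((1 - cl x.1) • h (gam u₁ u₂ v₁ v₂ v w x.2)
    + cl x.1 • h x0)
  have hH : Continuous H := by
    have h1 := continuous_cl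
    have h2 := continuous_gam u₁ u₂ v₁ v₂ v w
    have h3 := h.continuous
    have h4 := h.symm.continuous
    show Continuous fun x : ℝ × ℝ => h.symm ((1 - cl x.1) • h (gam u₁ u₂ v₁ v₂ v w x.2)
      + cl x.1 • h x0)
    fun_prop
  have hB : ∀ x, H x ∉ rectB u₃ u₄ v w₁ w₂ := by
    intro x hx
    have h1 := hneg x0 (hmem 0) (H x) hx
    have h2 : edist (h x0) (h (gam u₁ u₂ v₁ v₂ v w x.2))
        ≤ Metric.ediam (h '' rectA u₁ u₂ v₁ v₂ w) :=
      Metric.edist_le_ediam_of_mem ⟨_, hmem 0, rfl⟩ ⟨_, hmem x.2, rfl⟩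
    have h3 : edist (h x0) (h (H x)) ≤ edist (h x0) (h (gam u₁ u₂ v₁ v₂ v w x.2)) := by
      have h4 : h (H x) = (1 - cl x.1) • h (gam u₁ u₂ v₁ v₂ v w x.2) + cl x.1 • h x0 :=
        h.apply_symm_apply _
      rw [edist_dist, edist_dist]
      apply ENNReal.ofReal_le_ofReal
      rw [dist_eq_norm, dist_eq_norm, h4]
      have h5 : h x0 - ((1 - cl x.1) • h (gam u₁ u₂ v₁ v₂ v w x.2) + cl x.1 • h x0)
          = (1 - cl x.1) • (h x0 - h (gam u₁ u₂ v₁ v₂ v w x.2)) := by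
        rw [smul_sub, sub_smul, sub_smul, one_smul, one_smul]
        abel
      have h6 := cl_mem x.1
      rw [h5, norm_smul, Real.norm_of_nonneg (by linarith)]
      have := norm_nonneg (h x0 - h (gam u₁ u₂ v₁ v₂ v w x.2))
      nlinarith
    exact absurd (h3.trans h2) (not_le.2 h1)
  have hH0 : ∀ s, H (0, s) = gam u₁ u₂ v₁ v₂ v w s := by
    intro s
    show h.symm ((1 - cl 0) • h (gam u₁ u₂ v₁ v₂ v w s) + cl 0 • h x0) = _
    rw [cl_nonpos le_rfl, sub_zero, one_smul, zero_smul, add_zero, h.symm_apply_apply]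
  refine no_contract (fun x => tht u₃ u₄ v w₁ w₂ (H x)) ((continuous_tht _ _ _ _ _).comp hH)
    (fun x => tht_ne (by linarith) (by linarith) (hB x)) ?_ ?_ ?_ ?_ ?_ ?_ ?_
  · intro s s'
    show tht _ _ _ _ _ (h.symm ((1 - cl 1) • h (gam u₁ u₂ v₁ v₂ v w s) + cl 1 • h x0))
      = tht _ _ _ _ _ (h.symm ((1 - cl 1) • h (gam u₁ u₂ v₁ v₂ v w s') + cl 1 • h x0))
    rw [cl_one le_rfl, sub_self, zero_smul, zero_smul]
  · intro a
    have h1 : gam u₁ u₂ v₁ v₂ v w 3 = gam u₁ u₂ v₁ v₂ v w (-3) := by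
      unfold gam
      rw [abs_neg, neg_neg, hgt_three le_rfl, hgt_neg (by norm_num : (-3 : ℝ) ≤ 0)]
    show tht _ _ _ _ _ (h.symm ((1 - cl a) • h (gam u₁ u₂ v₁ v₂ v w 3) + cl a • h x0))
      = tht _ _ _ _ _ (h.symm ((1 - cl a) • h (gam u₁ u₂ v₁ v₂ v w (-3)) + cl a • h x0))
    rw [h1]
  · intro s hs _
    show 0 ≤ (tht _ _ _ _ _ (H (0, s))).im
    rw [hH0]
    show 0 ≤ gam u₁ u₂ v₁ v₂ v w s 1 - v
    rw [gam1, hgt_neg (by linarith : -s ≤ 0)]
    have := (hgt_mem s).1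
    nlinarith
  · intro s hs _
    show (tht _ _ _ _ _ (H (0, -s))).im ≤ 0
    rw [hH0]
    show gam u₁ u₂ v₁ v₂ v w (-s) 1 - v ≤ 0
    rw [gam1, neg_neg, hgt_neg (by linarith : -s ≤ 0)]
    have := (hgt_mem s).1
    nlinarith
  · show 0 < (tht _ _ _ _ _ (H (0, 0))).re
    rw [hH0]
    show 0 < max (|gam u₁ u₂ v₁ v₂ v w 0 0 - (u₃ + u₄) / 2| / ((u₄ - u₃) / 2)) _ - 1
    rw [sub_pos]
    refine lt_of_lt_of_le ?_ (le_max_left _ _)
    rw [one_lt_div (by linarith), gam0, abs_zero, cl_nonpos (by norm_num), mul_zero, add_zero,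
      lt_abs]
    right
    linarith
  · show (tht _ _ _ _ _ (H (0, 3))).re < 0
    rw [hH0]
    show max (|gam u₁ u₂ v₁ v₂ v w 3 0 - (u₃ + u₄) / 2| / ((u₄ - u₃) / 2))
      (|gam u₁ u₂ v₁ v₂ v w 3 2 - (w₁ + w₂) / 2| / ((w₂ - w₁) / 2)) - 1 < 0
    rw [sub_neg]
    refine max_lt ?_ ?_
    · rw [div_lt_one (by linarith), gam0, abs_of_nonneg (by norm_num : (0 : ℝ) ≤ 3),
        cl_one (by norm_num), abs_lt]
      constructor <;> linarith
    · rw [div_lt_one (by linarith), gam2, abs_lt]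
      constructor <;> linarith
  · show (tht _ _ _ _ _ (H (0, 3))).im = 0
    rw [hH0]
    show gam u₁ u₂ v₁ v₂ v w 3 1 - v = 0
    rw [gam1, hgt_three le_rfl, hgt_neg (by norm_num : (-3 : ℝ) ≤ 0)]
    ring

end Pool.Agent.Helper83_CNED.H3
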