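import Pool.Agent.Helper83_CNED.Stmt

/-!
# SUM: the sum over all cells
-/

set_option autoImplicit false
set_option linter.all false

open MeasureTheory Set Topology

open scoped ENNReal

noncomputable section

namespace Pool.Agent.Helper83_CNED.H3

/-- coordinate hyperplanes are null -/
theorem null_coord (j : Fin 3) (c : ℝ) : volume {p : Eu 3 | p j = c} = 0 := by
  have h := EuclideanSpace.volume_preserving_symm_measurableEquiv_toLp (Fin 3)
  have h1 : {p : Eu 3 | p j = c}
      = (MeasurableEquiv.toLp 2 (Fin 3 → ℝ)).symm ⁻¹' {f : Fin 3 → ℝ | f j = c} := rfl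
  rw [h1, h.measure_preimage_equiv]
  exact Measure.pi_hyperplane (fun _ : Fin 3 => (volume : Measure ℝ)) j c

theorem ae_grid (m : ℕ) : ∀ᵐ p : Eu 3, ∀ (j : Fin 3) (k : ℤ), (RR (m + 1) : ℝ) * p j ≠ k := by
  rw [ae_all_iff]
  intro j
  rw [ae_all_iff]
  intro k
  have h := null_coord j ((k : ℝ) / RR (m + 1))
  rw [ae_iff]
  refine measure_mono_null (fun p hp => ?_) h
  have hp' : (RR (m + 1) : ℝ) * p j = k := not_not.1 hp
  show p j = _
  rw [eq_div_iff (RRr_pos (m + 1)).ne', ← hp', mul_comm]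

/-- the projection of a cell -/
def cellP (m : ℕ) (z : Fin 3 → ℤ) (i : Fin 3) (s : Bool) (a : Fin 3 → ℤ) : Set (Eu 3) :=
  {p | ∀ j, j ≠ i → corner m z i s a j < p j ∧ p j < corner m z i s a j + 7 / RR (m + 1)}

theorem measurable_cellP (m : ℕ) (z : Fin 3 → ℤ) (i : Fin 3) (s : Bool) (a : Fin 3 → ℤ) :
    MeasurableSet (cellP m z i s a) := by
  have : cellP m z i s a = ⋂ j, ⋂ (_ : j ≠ i), {p : Eu 3 | corner m z i s a j < p j ∧
      p j < corner m z i s a j + 7 / RR (m + 1)} := by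
    ext p; simp [cellP]
  rw [this]
  refine MeasurableSet.iInter fun j => MeasurableSet.iInter fun _ => IsOpen.measurableSet ?_
  have hj : Continuous (fun x : Eu 3 => x j) := by fun_prop
  exact (isOpen_lt continuous_const hj).inter (isOpen_lt hj continuous_const)

theorem measurable_cellCol (m : ℕ) (z : Fin 3 → ℤ) (i : Fin 3) (s : Bool) (a : Fin 3 → ℤ) :
    MeasurableSet (cellCol m z i s a) := by
  have : cellCol m z i s a = {x : Eu 3 | |x i - tf m s (z i)| < 13 / RR (m + 1)} ∩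
      cellP m z i s a := rfl
  rw [this]
  refine MeasurableSet.inter (IsOpen.measurableSet ?_) (measurable_cellP _ _ _ _ _)
  exact isOpen_lt (by fun_prop) continuous_const

theorem corner_eq (m : ℕ) (z : Fin 3 → ℤ) (i : Fin 3) (s : Bool) (a : Fin 3 → ℤ) {j : Fin 3}
    (h : j ≠ i) : corner m z i s a j = (((MM m : ℤ) * z j + 7 * a j : ℤ) : ℝ) / RR (m + 1) := by
  unfold corner; rw [if_neg h]

theorem mem_cellP_iff (m : ℕ) (z : Fin 3 → ℤ) (i : Fin 3) (s : Bool) (a : Fin 3 → ℤ) (p : Eu 3) :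
    p ∈ cellP m z i s a ↔ ∀ j, j ≠ i → (((MM m : ℤ) * z j + 7 * a j : ℤ) : ℝ) < RR (m + 1) * p j ∧
      RR (m + 1) * p j < (((MM m : ℤ) * z j + 7 * a j : ℤ) : ℝ) + 7 := by
  have hR := RRr_pos (m + 1)
  refine forall_congr' fun j => forall_congr' fun hj => ?_
  rw [corner_eq m z i s a hj, ← add_div, div_lt_iff₀ hR, lt_div_iff₀ hR, mul_comm (p j)]

/-- the hypothesis on the indices -/
def Pz (m : ℕ) (i : Fin 3) (s : Bool) (z a : Fin 3 → ℤ) : Prop :=
  Odd (lab m z) ∧ Even (lab m (z + sg s • ue i)) ∧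
    (∀ j, j ≠ i → 3 ≤ a j ∧ a j < KK m - 3) ∧ a i = 0

open Classical in
/-- the terms -/
def FF (f : Eu 3 → Eu 3) (m : ℕ) (i : Fin 3) (t : Bool × ((Fin 3 → ℤ) × (Fin 3 → ℤ))) (p : Eu 3) :
    ℝ≥0∞ :=
  if Pz m i t.1 t.2.1 t.2.2 then (cellP m t.2.1 i t.1 t.2.2).indicator
    (fun p => edist (f (line p i (tf m t.1 (t.2.1 i)))) (f (line p i (tg m t.1 (t.2.1 i))))) p else 0

theorem measurable_FF {f : Eu 3 → Eu 3} (hf : Continuous f) (m : ℕ) (i : Fin 3)
    (t : Bool × ((Fin 3 → ℤ) × (Fin 3 → ℤ))) : Measurable (FF f m i t) := by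
  unfold FF
  by_cases h : Pz m i t.1 t.2.1 t.2.2
  · simp only [if_pos h]
    refine Measurable.indicator ?_ (measurable_cellP _ _ _ _ _)
    exact ((hf.comp (continuous_line_left i _)).edist
      (hf.comp (continuous_line_left i _))).measurable
  · simp only [if_neg h]
    exact measurable_const

/-- the index of the cell -/
def ia (m : ℕ) (i : Fin 3) (p : Eu 3) (k : ℤ) (s : Bool) : Bool × ((Fin 3 → ℤ) × (Fin 3 → ℤ)) :=
  (s, (Function.update (idx m p) i k,
    fun j => if j = i then 0 else (⌊(RR (m + 1) : ℝ) * p j⌋ % MM m) / 7))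

theorem jump_le (f : Eu 3 → Eu 3) (m : ℕ) (i : Fin 3) (p : Eu 3)
    (hp : ∀ (j : Fin 3) (k : ℤ), (RR (m + 1) : ℝ) * p j ≠ k) (s : Bool) (k : ℤ) :
    jump f m i s k p ≤ FF f m i (ia m i p k s) p := by
  unfold jump
  split_ifs with h
  · obtain ⟨h1, h2, h3⟩ := h
    have hPz : Pz m i (ia m i p k s).1 (ia m i p k s).2.1 (ia m i p k s).2.2 := by
      refine ⟨h1, h2, fun j hj => ?_, if_pos rfl⟩
      have h4 := h3 j hj
      unfold mid at h4
      show 3 ≤ (if j = i then 0 else (⌊(RR (m + 1) : ℝ) * p j⌋ % MM m) / 7) ∧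
        (if j = i then 0 else (⌊(RR (m + 1) : ℝ) * p j⌋ % MM m) / 7) < (KK m : ℤ) - 3
      rw [if_neg hj]
      have h5 : (MM m : ℤ) = 7 * KK m := by unfold MM; push_cast; rfl
      rw [h5] at h4 ⊢
      omega
    have hcell : p ∈ cellP m (ia m i p k s).2.1 i (ia m i p k s).1 (ia m i p k s).2.2 := by
      rw [mem_cellP_iff]
      intro j hj
      show (((MM m : ℤ) * Function.update (idx m p) i k j + 7 *
        (if j = i then 0 else (⌊(RR (m + 1) : ℝ) * p j⌋ % MM m) / 7) : ℤ) : ℝ) < _ ∧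
        _ < (((MM m : ℤ) * Function.update (idx m p) i k j + 7 *
        (if j = i then 0 else (⌊(RR (m + 1) : ℝ) * p j⌋ % MM m) / 7) : ℤ) : ℝ) + 7
      rw [if_neg hj, Function.update_of_ne hj]
      have h6 : idx m p j = ⌊(RR (m + 1) : ℝ) * p j⌋ / MM m := (congrFun (idx_par m p) j).symm
      rw [h6]
      set N : ℤ := ⌊(RR (m + 1) : ℝ) * p j⌋ with hN
      have h7 : (MM m : ℤ) * (N / MM m) + N % MM m = N := Int.mul_ediv_add_emod N (MM m)
      have h8 : (MM m : ℤ) * (N / MM m) + 7 * (N % MM m / 7) ≤ N := by omega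
      have h9 : N + 1 ≤ (MM m : ℤ) * (N / MM m) + 7 * (N % MM m / 7) + 7 := by omega
      constructor
      · refine lt_of_le_of_ne ?_ (fun h => hp j _ h.symm)
        exact (Int.cast_le.2 h8).trans (Int.floor_le _)
      · refine lt_of_lt_of_le (Int.lt_floor_add_one ((RR (m + 1) : ℝ) * p j)) ?_
        have := Int.cast_le (R := ℝ).2 h9
        push_cast at this ⊢
        exact this
    unfold FF
    rw [if_pos hPz, indicator_of_mem hcell]
    show _ ≤ edist (f (line p i (tf m s (Function.update (idx m p) i k i))))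
      (f (line p i (tg m s (Function.update (idx m p) i k i))))
    rw [Function.update_self]
  · exact zero_le

theorem ia_inj (m : ℕ) (i : Fin 3) (p : Eu 3) :
    Function.Injective (fun x : ℤ × Bool => ia m i p x.1 x.2) := by
  rintro ⟨k, s⟩ ⟨k', s'⟩ h
  have h1 : s = s' := congrArg Prod.fst h
  have h2 : Function.update (idx m p) i k = Function.update (idx m p) i k' :=
    congrArg (fun t => t.2.1) h
  have h3 := congrFun h2 i
  rw [Function.update_self, Function.update_self] at h3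
  rw [h1, h3]

theorem err_le (f : Eu 3 → Eu 3) (m : ℕ) (i : Fin 3) (p : Eu 3)
    (hp : ∀ (j : Fin 3) (k : ℤ), (RR (m + 1) : ℝ) * p j ≠ k) :
    err f m i p ≤ ∑' t, FF f m i t p := by
  have h1 : err f m i p = ∑' x : ℤ × Bool, jump f m i x.2 x.1 p := by
    rw [ENNReal.tsum_prod (f := fun k s => jump f m i s k p)]
    unfold err
    refine tsum_congr fun k => ?_
    rw [tsum_bool, add_comm]
  rw [h1]
  refine (ENNReal.tsum_le_tsum fun x : ℤ × Bool => jump_le f m i p hp x.2 x.1).trans ?_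
  exact ENNReal.tsum_comp_le_tsum_of_injective (ia_inj m i p) (fun t => FF f m i t p)

open Classical in
/-- the columns -/
def DD (m : ℕ) (i : Fin 3) (s : Bool) (t : (Fin 3 → ℤ) × (Fin 3 → ℤ)) : Set (Eu 3) :=
  if Pz m i s t.1 t.2 then cellCol m t.1 i s t.2 ∩ UU else ∅

theorem measurable_DD (m : ℕ) (i : Fin 3) (s : Bool) (t : (Fin 3 → ℤ) × (Fin 3 → ℤ)) :
    MeasurableSet (DD m i s t) := by
  unfold DD
  split_ifs
  · exact (measurable_cellCol _ _ _ _ _).inter isOpen_UU.measurableSet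
  · exact MeasurableSet.empty

theorem mem_DD {m : ℕ} {i : Fin 3} {s : Bool} {t : (Fin 3 → ℤ) × (Fin 3 → ℤ)} {x : Eu 3}
    (h : x ∈ DD m i s t) : Pz m i s t.1 t.2 ∧ x ∈ cellCol m t.1 i s t.2 ∧ x ∈ UU := by
  unfold DD at h
  split_ifs at h with h1
  · exact ⟨h1, h.1, h.2⟩
  · exact absurd h (Set.notMem_empty x)

theorem tf_mul (m : ℕ) (s : Bool) (k : ℤ) :
    (RR (m + 1) : ℝ) * tf m s k = MM m * (k + if s then 1 else 0) := by
  have h1 := (RRr_pos m).ne'
  unfold tf
  rw [RRr_succ]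
  split_ifs
  · field_simp
  · field_simp
    ring

theorem disj_DD (m : ℕ) (i : Fin 3) (s : Bool) : Pairwise (Function.onFun Disjoint (DD m i s)) := by
  rintro ⟨z, a⟩ ⟨z', a'⟩ hne
  rw [Function.onFun, Set.disjoint_left]
  intro x hx hx'
  apply hne
  obtain ⟨⟨-, -, b1, b2⟩, c1, -⟩ := mem_DD hx
  obtain ⟨⟨-, -, b3, b4⟩, c2, -⟩ := mem_DD hx'
  dsimp only at b1 b2 b3 b4 c1 c2
  have hR := RRr_pos (m + 1)
  have hM : (MM m : ℤ) = 7 * KK m := by unfold MM; push_cast; rfl
  have hcell := (mem_cellP_iff m z i s a x).1 c1.2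
  have hcell' := (mem_cellP_iff m z' i s a' x).1 c2.2
  have key : ∀ j, j ≠ i → z j = z' j ∧ a j = a' j := by
    intro j hj
    have e1 := hcell j hj
    have e2 := hcell' j hj
    have e3 := b1 j hj
    have e4 := b3 j hj
    have f1 : ((MM m : ℤ) * z j + 7 * a j : ℤ) < (MM m : ℤ) * z' j + 7 * a' j + 7 := by
      have : (((MM m : ℤ) * z j + 7 * a j : ℤ) : ℝ) < (((MM m : ℤ) * z' j + 7 * a' j + 7 : ℤ) : ℝ) := by
        push_cast at e1 e2 ⊢
        linarith [e1.1, e2.2]
      exact_mod_cast this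
    have f2 : ((MM m : ℤ) * z' j + 7 * a' j : ℤ) < (MM m : ℤ) * z j + 7 * a j + 7 := by
      have : (((MM m : ℤ) * z' j + 7 * a' j : ℤ) : ℝ) < (((MM m : ℤ) * z j + 7 * a j + 7 : ℤ) : ℝ) := by
        push_cast at e1 e2 ⊢
        linarith [e2.1, e1.2]
      exact_mod_cast this
    rw [hM] at f1 f2
    have f3 : (KK m : ℤ) * z j + a j = KK m * z' j + a' j := by
      have g1 : 7 * (KK m : ℤ) * z j = 7 * (KK m * z j) := by ring
      have g2 : 7 * (KK m : ℤ) * z' j = 7 * (KK m * z' j) := by ring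
      rw [g1, g2] at f1 f2
      omega
    have f4 : z j = z' j := by
      have g1 : (KK m : ℤ) * (z j - z' j) = a' j - a j := by linarith
      have g2 : (KK m : ℤ) ≥ 16 := by exact_mod_cast KK_ge m
      have g3 : |(KK m : ℤ) * (z j - z' j)| < KK m := by
        rw [g1, abs_lt]
        constructor <;> omega
      have g4 : |z j - z' j| < 1 := by
        rw [abs_mul, abs_of_nonneg (by omega : (0 : ℤ) ≤ KK m)] at g3
        by_contra g5
        push Not at g5
        nlinarith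
      have := Int.abs_lt_one_iff.1 g4
      omega
    refine ⟨f4, ?_⟩
    rw [f4] at f3
    omega
  have hzi : z i = z' i := by
    have e1 := c1.1
    have e2 := c2.1
    rw [lt_div_iff₀ hR] at e1 e2
    have e3 : |(x i - tf m s (z i)) * RR (m + 1)| < 13 := by
      rw [abs_mul, abs_of_pos hR]; exact e1
    have e4 : |(x i - tf m s (z' i)) * RR (m + 1)| < 13 := by
      rw [abs_mul, abs_of_pos hR]; exact e2
    have e5 := tf_mul m s (z i)
    have e6 := tf_mul m s (z' i)
    rw [abs_lt] at e3 e4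
    have e7 : |(MM m : ℝ) * ((z i : ℝ) - z' i)| < 26 := by
      rw [abs_lt]
      constructor <;> nlinarith
    have hM2 : (112 : ℝ) ≤ MM m := by exact_mod_cast MM_ge m
    have e8 : |((z i : ℝ) - z' i)| < 1 := by
      rw [abs_mul, abs_of_nonneg (by linarith : (0 : ℝ) ≤ MM m)] at e7
      by_contra g5
      push Not at g5
      nlinarith
    have e9 : |z i - z' i| < 1 := by exact_mod_cast e8
    have := Int.abs_lt_one_iff.1 e9
    omega
  refine Prod.ext (funext fun j => ?_) (funext fun j => ?_)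
  · by_cases hj : j = i
    · rw [hj]; exact hzi
    · exact (key j hj).1
  · by_cases hj : j = i
    · rw [hj]; show a i = a' i; rw [b2, b4]
    · exact (key j hj).2

theorem DD_sub (hrange : RangeStmt) (m : ℕ) (i : Fin 3) (s : Bool) :
    (⋃ t, DD m i s t) ⊆ NN m i ∩ UU := by
  intro x hx
  obtain ⟨⟨z, a⟩, hx⟩ := mem_iUnion.1 hx
  obtain ⟨⟨b0, -, b1, b2⟩, c1, c2⟩ := mem_DD hx
  dsimp only at b0 b1 b2 c1
  refine ⟨⟨?_, ?_⟩, c2⟩
  · intro j
    have hr := hrange m z b0 j
    have hR := RRr_pos (m + 1)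
    have hRm := RRr_pos m
    have hM : (MM m : ℤ) = 7 * KK m := by unfold MM; push_cast; rfl
    have hMM : (112 : ℝ) ≤ MM m := by exact_mod_cast MM_ge m
    have hr1 : -(RR m : ℝ) ≤ z j := by exact_mod_cast hr.1
    have hr2 : (z j : ℝ) + 1 ≤ 2 * RR m := by exact_mod_cast hr.2
    have hRS : (RR (m + 1) : ℝ) = RR m * MM m := RRr_succ m
    have hR1 : (1 : ℝ) ≤ RR m := by exact_mod_cast RR_pos m
    by_cases hj : j = i
    · subst hj
      have e1 := c1.1
      rw [lt_div_iff₀ hR] at e1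
      have e3 : |(x j - tf m s (z j)) * RR (m + 1)| < 13 := by
        rw [abs_mul, abs_of_pos hR]; exact e1
      have e5 := tf_mul m s (z j)
      rw [abs_lt] at e3
      have e6 : (0 : ℝ) ≤ (if s then 1 else 0) ∧ ((if s then 1 else 0 : ℝ)) ≤ 1 := by
        split_ifs <;> norm_num
      have e7 : -(RR (m + 1) : ℝ) - 13 ≤ RR (m + 1) * x j := by
        have : -(RR (m + 1) : ℝ) ≤ MM m * (z j + if s then 1 else 0) := by
          rw [hRS]; nlinarith [e6.1]
        nlinarith
      have e8 : (RR (m + 1) : ℝ) * x j ≤ 2 * RR (m + 1) + 13 := by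
        have : (MM m : ℝ) * (z j + if s then 1 else 0) ≤ 2 * RR (m + 1) := by
          rw [hRS]; nlinarith [e6.2]
        nlinarith
      have e9 : (112 : ℝ) ≤ RR (m + 1) := by rw [hRS]; nlinarith
      constructor
      · nlinarith
      · nlinarith
    · have e1 := (mem_cellP_iff m z i s a x).1 c1.2 j hj
      have e2 := b1 j hj
      have e3 : (7 : ℝ) * a j + 7 ≤ MM m := by
        have : 7 * a j + 7 ≤ MM m := by rw [hM]; omega
        exact_mod_cast this
      have e4 : (0 : ℝ) ≤ a j := by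
        have : 0 ≤ a j := by omega
        exact_mod_cast this
      push_cast at e1
      have e5 : -(RR (m + 1) : ℝ) ≤ RR (m + 1) * x j := by
        rw [hRS] at e1 ⊢; nlinarith [e1.1]
      have e6 : (RR (m + 1) : ℝ) * x j ≤ 2 * RR (m + 1) := by
        rw [hRS] at e1 ⊢; nlinarith [e1.2]
      constructor
      · nlinarith
      · nlinarith
  · have e1 := c1.1.le
    unfold tf at e1
    cases s with
    | true => exact ⟨z i + 1, by simpa using e1⟩
    | false => exact ⟨z i, by simpa using e1⟩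

theorem sum (hg : GadFStmt) (hrange : RangeStmt) : SumStmt := by
  obtain ⟨C, hC, hg⟩ := hg
  refine ⟨2 * C, ENNReal.mul_ne_top (by norm_num) hC, fun f g hfg m i => ?_⟩
  set S : Set (Eu 3) := {p : Eu 3 | 0 < p i ∧ p i < 1} with hS
  have step1 : ∫⁻ p in S, err f m i p ≤ ∫⁻ p in S, ∑' t, FF f m i t p := by
    refine lintegral_mono_ae (ae_restrict_of_ae ?_)
    filter_upwards [ae_grid m] with p hp
    exact err_le f m i p hp
  have step2 : ∫⁻ p in S, ∑' t, FF f m i t p = ∑' t, ∫⁻ p in S, FF f m i t p :=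
    lintegral_tsum fun t => (measurable_FF f.continuous m i t).aemeasurable
  have step3 : ∀ t : Bool × ((Fin 3 → ℤ) × (Fin 3 → ℤ)),
      ∫⁻ p in S, FF f m i t p ≤ C * ∫⁻ x in DD m i t.1 t.2, g x := by
    rintro ⟨s, z, a⟩
    unfold FF DD
    by_cases h : Pz m i s z a
    · simp only [if_pos h]
      rw [lintegral_indicator (measurable_cellP _ _ _ _ _),
        Measure.restrict_restrict (measurable_cellP _ _ _ _ _)]
      have h1 := hg f g hfg m z i s h.1 h.2.1 a h.2.2.1
      have h2 : cellP m z i s a ∩ S = {p : Eu 3 | (0 < p i ∧ p i < 1) ∧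
        ∀ j, j ≠ i → corner m z i s a j < p j ∧ p j < corner m z i s a j + 7 / RR (m + 1)} := by
        rw [inter_comm]; rfl
      rw [h2]
      exact h1
    · simp only [if_neg h]
      rw [lintegral_zero]
      exact zero_le
  calc ∫⁻ p in S, err f m i p ≤ ∑' t, ∫⁻ p in S, FF f m i t p := step1.trans step2.le
    _ ≤ ∑' t : Bool × ((Fin 3 → ℤ) × (Fin 3 → ℤ)), C * ∫⁻ x in DD m i t.1 t.2, g x :=
        ENNReal.tsum_le_tsum step3
    _ = ∑' s : Bool, ∑' t : (Fin 3 → ℤ) × (Fin 3 → ℤ), C * ∫⁻ x in DD m i s t, g x :=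
        ENNReal.tsum_prod (f := fun s t => C * ∫⁻ x in DD m i s t, g x)
    _ = ∑' s : Bool, C * ∫⁻ x in ⋃ t, DD m i s t, g x := by
        refine tsum_congr fun s => ?_
        rw [ENNReal.tsum_mul_left, lintegral_iUnion (measurable_DD m i s) (disj_DD m i s)]
    _ ≤ ∑' s : Bool, C * ∫⁻ x in NN m i ∩ UU, g x := by
        refine ENNReal.tsum_le_tsum fun s => ?_
        gcongr
        exact DD_sub hrange m i s
    _ = 2 * C * ∫⁻ x in NN m i ∩ UU, g x := by
        rw [tsum_bool, mul_assoc, two_mul]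

end Pool.Agent.Helper83_CNED.H3
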